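import Mathlib

/-!
# Extremal polynomial-solution points in the Josephson model are not collinear

For `ω > 0`, `l ≥ 1` and real `A`, equation `(*)` is the double confluent Heun equation
`z²E'' + ((1-l)z + μ(1-z²))E' + (λ + μ(l-1)z)E = 0`, `μ = A/(2ω)`, `λ = 1/(4ω²) - μ²`.
`𝒫_l` is the point `(lω, A)` with the largest `A` for which `(*)` has a nonzero polynomial
solution.  We show that for every `ω > 0` the points `𝒫₁, 𝒫₂, 𝒫₃` exist and are not collinear.
-/

namespace Pool.Agent.Results.MP_e0279d_an.NotCollinear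

open Polynomial

/-- Equation `(*)` with parameters `ω`, `l`, `A` has a nonzero (complex) polynomial solution. -/
def HasPolySol (ω : ℝ) (l : ℕ) (A : ℝ) : Prop :=
  ∃ E : Polynomial ℂ, E ≠ 0 ∧ ∀ z : ℂ,
    z ^ 2 * (derivative (derivative E)).eval z
      + ((1 - (l : ℂ)) * z + ((A / (2 * ω) : ℝ) : ℂ) * (1 - z ^ 2)) * (derivative E).eval z
      + (((1 / (4 * ω ^ 2) - (A / (2 * ω)) ^ 2 : ℝ) : ℂ)
          + ((A / (2 * ω) : ℝ) : ℂ) * ((l : ℂ) - 1) * z) * E.eval z = 0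

/-- `p = (B, A)` is the point `𝒫_l`: it lies on the line `B = l ω` and `A` is the largest
ordinate for which `(*)` has a nonzero polynomial solution. -/
def IsExtremalPoint (ω : ℝ) (l : ℕ) (p : ℝ × ℝ) : Prop :=
  p.1 = l * ω ∧ IsGreatest {A : ℝ | HasPolySol ω l A} p.2

/-- Polynomial form of the equation. -/
lemma poly_eq {l : ℕ} {μ lam : ℂ} {E : Polynomial ℂ}
    (h : ∀ z : ℂ,
      z ^ 2 * (derivative (derivative E)).eval z
      + ((1 - (l : ℂ)) * z + μ * (1 - z ^ 2)) * (derivative E).eval z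
      + (lam + μ * ((l : ℂ) - 1) * z) * E.eval z = 0) :
    X * (X * derivative (derivative E)) + C (1 - (l : ℂ)) * (X * derivative E)
      + C μ * derivative E - C μ * (X * (X * derivative E))
      + C lam * E + C (μ * ((l : ℂ) - 1)) * (X * E) = 0 := by
  apply Polynomial.funext
  intro z
  have := h z
  simp only [eval_add, eval_mul, eval_X, eval_C, eval_sub, eval_zero]
  linear_combination this

lemma rec_zero {l : ℕ} {μ lam : ℂ} {E : Polynomial ℂ}
    (h : ∀ z : ℂ,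
      z ^ 2 * (derivative (derivative E)).eval z
      + ((1 - (l : ℂ)) * z + μ * (1 - z ^ 2)) * (derivative E).eval z
      + (lam + μ * ((l : ℂ) - 1) * z) * E.eval z = 0) :
    lam * E.coeff 0 + μ * E.coeff 1 = 0 := by
  have := congrArg (fun P => P.coeff 0) (poly_eq h)
  simp only [coeff_add, coeff_sub, coeff_C_mul, coeff_X_mul_zero, coeff_zero,
    coeff_derivative] at this
  norm_num at this
  linear_combination this

lemma rec_succ {l : ℕ} {μ lam : ℂ} {E : Polynomial ℂ}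
    (h : ∀ z : ℂ,
      z ^ 2 * (derivative (derivative E)).eval z
      + ((1 - (l : ℂ)) * z + μ * (1 - z ^ 2)) * (derivative E).eval z
      + (lam + μ * ((l : ℂ) - 1) * z) * E.eval z = 0) (k : ℕ) :
    (((k : ℂ) + 1) * (k + 1 - l) + lam) * E.coeff (k + 1) + μ * (k + 2) * E.coeff (k + 2)
      + μ * (l - k - 1) * E.coeff k = 0 := by
  have := congrArg (fun P => P.coeff (k + 1)) (poly_eq h)
  rcases k with _ | j
  · simp only [coeff_add, coeff_sub, coeff_C_mul, coeff_X_mul_zero, coeff_zero, coeff_X_mul,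
      coeff_derivative] at this
    norm_num at this ⊢
    linear_combination this
  · simp only [coeff_add, coeff_sub, coeff_C_mul, coeff_zero, coeff_X_mul,
      coeff_derivative] at this
    push_cast at this ⊢
    linear_combination this

/-- If `μ ≠ 0`, a nonzero polynomial solution has degree exactly `l - 1`. -/
lemma natDegree_eq {l : ℕ} {μ lam : ℂ} {E : Polynomial ℂ} (hE : E ≠ 0) (hμ : μ ≠ 0)
    (h : ∀ z : ℂ,
      z ^ 2 * (derivative (derivative E)).eval z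
      + ((1 - (l : ℂ)) * z + μ * (1 - z ^ 2)) * (derivative E).eval z
      + (lam + μ * ((l : ℂ) - 1) * z) * E.eval z = 0) :
    l = E.natDegree + 1 := by
  have h1 := rec_succ h E.natDegree
  rw [coeff_eq_zero_of_natDegree_lt (Nat.lt_succ_self _),
    coeff_eq_zero_of_natDegree_lt (show E.natDegree < E.natDegree + 2 by omega)] at h1
  have h2 : E.coeff E.natDegree ≠ 0 := by
    simpa using hE
  have h3 : (l : ℂ) - E.natDegree - 1 = 0 := by
    have : μ * ((l : ℂ) - E.natDegree - 1) * E.coeff E.natDegree = 0 := by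
      linear_combination h1
    rcases mul_eq_zero.mp this with h | h
    · exact (mul_eq_zero.mp h).resolve_left hμ
    · exact absurd h h2
  have h4 : (l : ℂ) = ((E.natDegree + 1 : ℕ) : ℂ) := by
    push_cast
    linear_combination h3
  exact_mod_cast h4

/-- `l = 1`: the polynomial solvability condition is `A² = 1` when `A > 0`. -/
lemma det_one {ω A : ℝ} (hω : 0 < ω) (hA : 0 < A) (h : HasPolySol ω 1 A) : A ^ 2 = 1 := by
  obtain ⟨E, hE, h⟩ := h
  have hμ : ((A / (2 * ω) : ℝ) : ℂ) ≠ 0 := by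
    rw [Ne, Complex.ofReal_eq_zero]
    positivity
  have hd := natDegree_eq hE hμ h
  have hd0 : E.natDegree = 0 := by omega
  have h0 := rec_zero h
  have he0 : E.coeff 0 ≠ 0 := by
    have : E.coeff E.natDegree ≠ 0 := by simpa using hE
    rwa [hd0] at this
  have he1 : E.coeff 1 = 0 := coeff_eq_zero_of_natDegree_lt (by omega)
  rw [he1, mul_zero, add_zero] at h0
  have h1 := (mul_eq_zero.mp h0).resolve_right he0
  rw [Complex.ofReal_eq_zero] at h1
  field_simp at h1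
  nlinarith

/-- `l = 2`: the polynomial solvability condition is `(A² - 1)² = 4ω²` when `A > 0`. -/
lemma det_two {ω A : ℝ} (hω : 0 < ω) (hA : 0 < A) (h : HasPolySol ω 2 A) :
    (A ^ 2 - 1) ^ 2 = (2 * ω) ^ 2 := by
  obtain ⟨E, hE, h⟩ := h
  have hμ : ((A / (2 * ω) : ℝ) : ℂ) ≠ 0 := by
    rw [Ne, Complex.ofReal_eq_zero]
    positivity
  have hd := natDegree_eq hE hμ h
  have hd0 : E.natDegree = 1 := by omega
  have h0 := rec_zero h
  have h1 := rec_succ h 0
  have he1 : E.coeff 1 ≠ 0 := by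
    have : E.coeff E.natDegree ≠ 0 := by simpa using hE
    rwa [hd0] at this
  have he2 : E.coeff 2 = 0 := coeff_eq_zero_of_natDegree_lt (by omega)
  set μ : ℝ := A / (2 * ω) with hμdef
  set lam : ℝ := 1 / (4 * ω ^ 2) - μ ^ 2 with hlam
  norm_num [he2] at h1
  have h2 : ((lam * (lam - 1) - μ ^ 2 : ℝ) : ℂ) = 0 := by
    have : ((lam : ℂ) * (lam - 1) - (μ : ℂ) ^ 2) * E.coeff 1 = 0 := by
      linear_combination (lam : ℂ) * h1 - (μ : ℂ) * h0
    have := (mul_eq_zero.mp this).resolve_right he1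
    push_cast
    exact this
  rw [Complex.ofReal_eq_zero] at h2
  rw [hlam, hμdef] at h2
  field_simp at h2
  nlinarith

/-- `l = 3`: with `d = A² - 1` the condition is `d³ = 16ω²d + 64ω⁴` when `A > 0`. -/
lemma det_three {ω A : ℝ} (hω : 0 < ω) (hA : 0 < A) (h : HasPolySol ω 3 A) :
    (A ^ 2 - 1) ^ 3 = 16 * ω ^ 2 * (A ^ 2 - 1) + 64 * ω ^ 4 := by
  obtain ⟨E, hE, h⟩ := h
  have hμ : ((A / (2 * ω) : ℝ) : ℂ) ≠ 0 := by
    rw [Ne, Complex.ofReal_eq_zero]
    positivity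
  have hd := natDegree_eq hE hμ h
  have hd0 : E.natDegree = 2 := by omega
  have h0 := rec_zero h
  have h1 := rec_succ h 0
  have h2 := rec_succ h 1
  have he2 : E.coeff 2 ≠ 0 := by
    have : E.coeff E.natDegree ≠ 0 := by simpa using hE
    rwa [hd0] at this
  have he3 : E.coeff 3 = 0 := coeff_eq_zero_of_natDegree_lt (by omega)
  set μ : ℝ := A / (2 * ω) with hμdef
  set lam : ℝ := 1 / (4 * ω ^ 2) - μ ^ 2 with hlam
  norm_num [he3] at h1 h2
  have h3 : ((lam * (lam - 2) ^ 2 - 4 * μ ^ 2 * lam + 4 * μ ^ 2 : ℝ) : ℂ) = 0 := by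
    have : ((lam : ℂ) * (lam - 2) ^ 2 - 4 * (μ : ℂ) ^ 2 * lam + 4 * (μ : ℂ) ^ 2)
        * E.coeff 2 = 0 := by
      linear_combination ((lam : ℂ) * (lam - 2) - 2 * (μ : ℂ) ^ 2) * h2
        - (lam : ℂ) * μ * h1 + 2 * (μ : ℂ) ^ 2 * h0
    have := (mul_eq_zero.mp this).resolve_right he2
    push_cast
    exact this
  rw [Complex.ofReal_eq_zero] at h3
  have hs : μ ^ 2 = A ^ 2 * (1 / (4 * ω ^ 2)) := by
    rw [hμdef]; field_simp; norm_num
  have hl : lam = (1 - A ^ 2) * (1 / (4 * ω ^ 2)) := by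
    rw [hlam, hs]; ring
  have hs4 : (1 / (4 * ω ^ 2)) * (4 * ω ^ 2) = 1 := by
    field_simp
  set s : ℝ := 1 / (4 * ω ^ 2) with hsdef
  have hspos : 0 < s := by positivity
  rw [hs, hl] at h3
  have h4 : s ^ 2 * (A ^ 2 - 1) ^ 3 = 4 * s * (A ^ 2 - 1) + 4 := by
    have : s * (s ^ 2 * (A ^ 2 - 1) ^ 3 - (4 * s * (A ^ 2 - 1) + 4)) = 0 := by
      linear_combination -h3
    rcases mul_eq_zero.mp this with h | h
    · exact absurd h hspos.ne'
    · linarith
  have e1 : (4 * ω ^ 2) ^ 2 * (s ^ 2 * (A ^ 2 - 1) ^ 3)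
      = (A ^ 2 - 1) ^ 3 := by
    have : (4 * ω ^ 2) ^ 2 * (s ^ 2 * (A ^ 2 - 1) ^ 3)
      = (s * (4 * ω ^ 2)) ^ 2 * (A ^ 2 - 1) ^ 3 := by ring
    rw [this, hs4]; ring
  have e2 : (4 * ω ^ 2) ^ 2 * (4 * s * (A ^ 2 - 1) + 4)
      = 16 * ω ^ 2 * (A ^ 2 - 1) + 64 * ω ^ 4 := by
    have : (4 * ω ^ 2) ^ 2 * (4 * s * (A ^ 2 - 1) + 4)
      = (s * (4 * ω ^ 2)) * (16 * ω ^ 2 * (A ^ 2 - 1)) + 64 * ω ^ 4 := by ring
    rw [this, hs4]; ring
  rw [← e1, h4, e2]

/-- Quadratic candidates: it suffices to check the coefficient equations. -/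
lemma quad_sol {l : ℕ} {μ lam a b c : ℂ}
    (h0 : lam * a + μ * b = 0)
    (h1 : (1 - l + lam) * b + 2 * μ * c + μ * (l - 1) * a = 0)
    (h2 : (2 * (2 - l) + lam) * c + μ * (l - 2) * b = 0)
    (h3 : μ * (l - 3) * c = 0) (z : ℂ) :
    z ^ 2 * (derivative (derivative (C a + C b * X + C c * X ^ 2))).eval z
      + ((1 - (l : ℂ)) * z + μ * (1 - z ^ 2))
        * (derivative (C a + C b * X + C c * X ^ 2)).eval z
      + (lam + μ * ((l : ℂ) - 1) * z) * (C a + C b * X + C c * X ^ 2).eval z = 0 := by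
  have d1 : derivative (C a + C b * X + C c * X ^ 2) = C b + C (2 * c) * X := by
    simp only [derivative_add, derivative_mul, derivative_C, derivative_X, derivative_X_pow,
      zero_mul, zero_add, mul_one, C_mul]
    norm_num
    ring
  have d2 : derivative (C b + C (2 * c) * X) = C (2 * c) := by
    simp only [derivative_add, derivative_mul, derivative_C, derivative_X,
      zero_mul, zero_add, mul_one]
  rw [d1, d2]
  simp only [eval_add, eval_mul, eval_C, eval_X, eval_pow]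
  linear_combination h0 + z * h1 + z ^ 2 * h2 + z ^ 3 * h3

/-- `l = 1`: existence at `A = 1`. -/
lemma sol_one {ω : ℝ} (hω : 0 < ω) : HasPolySol ω 1 1 := by
  refine ⟨1, one_ne_zero, fun z => ?_⟩
  have : (1 / (4 * ω ^ 2) - (1 / (2 * ω)) ^ 2 : ℝ) = 0 := by
    field_simp; norm_num
  rw [this]
  simp

/-- `l = 2`: existence when `(A² - 1)² = 4ω²`, `A > 0`. -/
lemma sol_two {ω A : ℝ} (hω : 0 < ω) (hA : 0 < A) (h : (A ^ 2 - 1) ^ 2 = (2 * ω) ^ 2) :
    HasPolySol ω 2 A := by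
  unfold HasPolySol
  set μ : ℝ := A / (2 * ω) with hμdef
  set lam : ℝ := 1 / (4 * ω ^ 2) - μ ^ 2 with hlam
  have hμ : (μ : ℂ) ≠ 0 := by
    rw [Ne, Complex.ofReal_eq_zero, hμdef]
    positivity
  have hdet : lam * (lam - 1) = μ ^ 2 := by
    rw [hlam, hμdef]
    field_simp
    nlinarith
  have hdetC : (lam : ℂ) * (lam - 1) = (μ : ℂ) ^ 2 := by exact_mod_cast hdet
  refine ⟨C (μ : ℂ) + C (-(lam : ℂ)) * X + C 0 * X ^ 2, ?_, fun z => quad_sol ?_ ?_ ?_ ?_ z⟩
  · intro h0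
    have := congrArg (fun P => P.coeff 0) h0
    simp at this
    exact hμ (by exact_mod_cast this)
  · ring
  · push_cast
    linear_combination -hdetC
  · push_cast
    ring
  · ring

/-- `l = 3`: existence when `(A² - 1)³ = 16ω²(A² - 1) + 64ω⁴`, `A > 1`. -/
lemma sol_three {ω A : ℝ} (hω : 0 < ω) (hA : 1 < A)
    (h : (A ^ 2 - 1) ^ 3 = 16 * ω ^ 2 * (A ^ 2 - 1) + 64 * ω ^ 4) :
    HasPolySol ω 3 A := by
  unfold HasPolySol
  set μ : ℝ := A / (2 * ω) with hμdef
  set lam : ℝ := 1 / (4 * ω ^ 2) - μ ^ 2 with hlam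
  have hA0 : 0 < A := by linarith
  have hμ : (μ : ℂ) ≠ 0 := by
    rw [Ne, Complex.ofReal_eq_zero, hμdef]
    positivity
  have hs : μ ^ 2 = A ^ 2 * (1 / (4 * ω ^ 2)) := by
    rw [hμdef]; field_simp; norm_num
  have hl : lam = (1 - A ^ 2) * (1 / (4 * ω ^ 2)) := by
    rw [hlam, hs]; ring
  have hs4 : (1 / (4 * ω ^ 2)) * (4 * ω ^ 2) = 1 := by
    field_simp
  set s : ℝ := 1 / (4 * ω ^ 2) with hsdef
  have hspos : 0 < s := by positivity
  have hlneg : lam < 0 := by
    rw [hl]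
    have : 1 - A ^ 2 < 0 := by nlinarith
    exact mul_neg_of_neg_of_pos this hspos
  have h4 : s ^ 2 * (A ^ 2 - 1) ^ 3 = 4 * s * (A ^ 2 - 1) + 4 := by
    rw [h]
    have : s ^ 2 * (16 * ω ^ 2 * (A ^ 2 - 1) + 64 * ω ^ 4)
      = (s * (4 * ω ^ 2)) * (4 * s * (A ^ 2 - 1)) + 4 * (s * (4 * ω ^ 2)) ^ 2 := by ring
    rw [this, hs4]; ring
  have hdet : lam * (lam - 2) ^ 2 - 4 * μ ^ 2 * lam + 4 * μ ^ 2 = 0 := by
    rw [hs, hl]
    linear_combination -s * h4
  have hdetC : (lam : ℂ) * (lam - 2) ^ 2 - 4 * (μ : ℂ) ^ 2 * lam + 4 * (μ : ℂ) ^ 2 = 0 := by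
    exact_mod_cast hdet
  have hl2 : (lam : ℂ) - 2 ≠ 0 := by
    intro h0
    have : lam - 2 = 0 := by exact_mod_cast h0
    linarith
  refine ⟨C ((μ : ℂ) * (lam - 2)) + C (-(lam : ℂ) * (lam - 2)) * X + C ((lam : ℂ) * μ) * X ^ 2,
    ?_, fun z => quad_sol ?_ ?_ ?_ ?_ z⟩
  · intro h0
    have := congrArg (fun P => P.coeff 0) h0
    simp only [coeff_add, coeff_C_zero, coeff_C_mul, coeff_X_zero, mul_zero, coeff_X_pow,
      coeff_zero] at this
    norm_num at this
    rcases this with h | h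
    · exact hμ (by exact_mod_cast h)
    · exact hl2 h
  · ring
  · push_cast
    linear_combination -hdetC
  · push_cast
    ring
  · push_cast
    ring

/-- Existence of the auxiliary root `e > 1` of `e³ - e = ω`. -/
lemma exists_root {ω : ℝ} (hω : 0 < ω) : ∃ e : ℝ, 1 < e ∧ e ^ 3 - e = ω := by
  have hcont : ContinuousOn (fun e : ℝ => e ^ 3 - e) (Set.Icc 1 (1 + ω)) := by
    fun_prop
  have hiv := intermediate_value_Icc (show (1 : ℝ) ≤ 1 + ω by linarith) hcont
  have hmem : ω ∈ Set.Icc ((1 : ℝ) ^ 3 - 1) ((1 + ω) ^ 3 - (1 + ω)) := by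
    constructor
    · norm_num; exact hω.le
    · nlinarith [mul_pos hω hω, mul_pos (mul_pos hω hω) hω]
  obtain ⟨e, he, hee⟩ := hiv hmem
  refine ⟨e, ?_, hee⟩
  rcases lt_or_eq_of_le he.1 with h | h
  · exact h
  · exfalso
    have : e ^ 3 - e = ω := hee
    rw [← h] at this
    norm_num at this
    linarith

theorem extremal_one {ω : ℝ} (hω : 0 < ω) : IsExtremalPoint ω 1 (ω, 1) := by
  refine ⟨by simp, sol_one hω, ?_⟩
  intro A hA
  rcases le_or_gt A 0 with h | h
  · exact h.trans (by norm_num)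
  · have := det_one hω h hA
    show A ≤ 1
    nlinarith

theorem extremal_two {ω : ℝ} (hω : 0 < ω) :
    IsExtremalPoint ω 2 (2 * ω, Real.sqrt (1 + 2 * ω)) := by
  have hpos : 0 < 1 + 2 * ω := by linarith
  have hsq : Real.sqrt (1 + 2 * ω) ^ 2 = 1 + 2 * ω := Real.sq_sqrt hpos.le
  refine ⟨by simp, sol_two hω (Real.sqrt_pos.mpr hpos) ?_, ?_⟩
  · show (Real.sqrt (1 + 2 * ω) ^ 2 - 1) ^ 2 = (2 * ω) ^ 2
    rw [hsq]; ring
  · intro A hA
    show A ≤ Real.sqrt (1 + 2 * ω)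
    rcases le_or_gt A 0 with h | h
    · exact h.trans (Real.sqrt_nonneg _)
    · have := det_two hω h hA
      apply Real.le_sqrt_of_sq_le
      have h2 : A ^ 2 - 1 ≤ 2 * ω := by
        by_contra hc
        push Not at hc
        nlinarith
      linarith

theorem extremal_three {ω e : ℝ} (hω : 0 < ω) (he : 1 < e) (hee : e ^ 3 - e = ω) :
    IsExtremalPoint ω 3 (3 * ω, Real.sqrt (1 + 4 * ω * e)) := by
  have hwe : 0 < ω * e := mul_pos hω (by linarith)
  have hpos : 0 < 1 + 4 * ω * e := by nlinarith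
  have hsq : Real.sqrt (1 + 4 * ω * e) ^ 2 = 1 + 4 * ω * e := Real.sq_sqrt hpos.le
  have h1 : 1 < Real.sqrt (1 + 4 * ω * e) := by
    rw [Real.lt_sqrt (by norm_num)]
    nlinarith
  refine ⟨by simp, sol_three hω h1 ?_, ?_⟩
  · show (Real.sqrt (1 + 4 * ω * e) ^ 2 - 1) ^ 3
      = 16 * ω ^ 2 * (Real.sqrt (1 + 4 * ω * e) ^ 2 - 1) + 64 * ω ^ 4
    rw [hsq]
    linear_combination 64 * ω ^ 3 * hee
  · intro A hA
    show A ≤ Real.sqrt (1 + 4 * ω * e)
    rcases le_or_gt A 0 with h | h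
    · exact h.trans (Real.sqrt_nonneg _)
    · have h3 := det_three hω h hA
      apply Real.le_sqrt_of_sq_le
      by_contra hc
      push Not at hc
      -- `f = (A² - 1)/(4ω) > e` and `f³ - f = ω`
      set f : ℝ := (A ^ 2 - 1) / (4 * ω) with hf
      have hfA : A ^ 2 - 1 = 4 * ω * f := by
        rw [hf]; field_simp
      have hfe : e < f := by
        rw [hf, lt_div_iff₀ (by positivity)]
        linarith
      rw [hfA] at h3
      have h5 : f ^ 3 - f = ω := by
        have : 64 * ω ^ 3 * (f ^ 3 - f - ω) = 0 := by linear_combination h3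
        rcases mul_eq_zero.mp this with h | h
        · exact absurd h (by positivity)
        · linarith
      have h6 : (f - e) * (f ^ 2 + f * e + e ^ 2 - 1) = 0 := by
        linear_combination h5 - hee
      have h7 : 0 < f ^ 2 + f * e + e ^ 2 - 1 := by nlinarith
      have h8 : 0 < f - e := by linarith
      exact absurd h6 (mul_pos h8 h7).ne'

/-- The three points are never collinear. -/
theorem not_collinear {ω e : ℝ} (hω : 0 < ω) (he : 1 < e) (hee : e ^ 3 - e = ω) :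
    ¬ Collinear ℝ {((ω, 1) : ℝ × ℝ), (2 * ω, Real.sqrt (1 + 2 * ω)),
      (3 * ω, Real.sqrt (1 + 4 * ω * e))} := by
  intro hcol
  rw [collinear_iff_of_mem (p₀ := ((ω, 1) : ℝ × ℝ)) (by simp)] at hcol
  obtain ⟨v, hv⟩ := hcol
  obtain ⟨r, hr⟩ := hv (2 * ω, Real.sqrt (1 + 2 * ω)) (by simp)
  obtain ⟨t, ht⟩ := hv (3 * ω, Real.sqrt (1 + 4 * ω * e)) (by simp)
  have hr1 : 2 * ω = r * v.1 + ω := by simpa using congrArg Prod.fst hr
  have hr2 : Real.sqrt (1 + 2 * ω) = r * v.2 + 1 := by simpa using congrArg Prod.snd hr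
  have ht1 : 3 * ω = t * v.1 + ω := by simpa using congrArg Prod.fst ht
  have ht2 : Real.sqrt (1 + 4 * ω * e) = t * v.2 + 1 := by simpa using congrArg Prod.snd ht
  have hv1 : v.1 ≠ 0 := by
    intro h0
    rw [h0] at hr1
    linarith
  have htr : t = 2 * r := by
    have : (t - 2 * r) * v.1 = 0 := by linear_combination 2 * hr1 - ht1
    rcases mul_eq_zero.mp this with h | h
    · linarith
    · exact absurd h hv1
  have hpos : 0 < 1 + 2 * ω := by linarith
  have hwe : 0 < ω * e := mul_pos hω (by linarith)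
  have hpos' : 0 < 1 + 4 * ω * e := by nlinarith
  have hsq : Real.sqrt (1 + 2 * ω) ^ 2 = 1 + 2 * ω := Real.sq_sqrt hpos.le
  have hsq' : Real.sqrt (1 + 4 * ω * e) ^ 2 = 1 + 4 * ω * e := Real.sq_sqrt hpos'.le
  set q : ℝ := Real.sqrt (1 + 2 * ω) with hq
  have hq1 : 1 < q := by
    rw [hq, Real.lt_sqrt (by norm_num)]
    linarith
  have hm : Real.sqrt (1 + 4 * ω * e) = 2 * q - 1 := by
    rw [ht2, htr]; linarith
  rw [hm] at hsq'
  -- ω e = q (q - 1), 2 ω = q² - 1
  have hw : ω = (q ^ 2 - 1) / 2 := by linarith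
  have h1 : ω * e = q * (q - 1) := by linarith
  have h2 : (q + 1) * e = 2 * q := by
    have : (q - 1) * ((q + 1) * e - 2 * q) = 0 := by
      rw [hw] at h1
      linear_combination 2 * h1
    rcases mul_eq_zero.mp this with h | h
    · linarith
    · linarith
  have h3 : (q + 1) ^ 3 * (e ^ 3 - e) = 8 * q ^ 3 - 2 * q * (q + 1) ^ 2 := by
    have : (q + 1) ^ 3 * (e ^ 3 - e) = ((q + 1) * e) ^ 3 - ((q + 1) * e) * (q + 1) ^ 2 := by
      ring
    rw [this, h2]; ring
  rw [hee, hw] at h3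
  have h4 : (q - 1) ^ 2 * (q ^ 3 + 5 * q ^ 2 - q - 1) = 0 := by
    linear_combination 2 * h3
  have h5 : 0 < q ^ 3 + 5 * q ^ 2 - q - 1 := by nlinarith
  have h6 : 0 < (q - 1) ^ 2 := by
    have : 0 < q - 1 := by linarith
    positivity
  exact absurd h4 (mul_pos h6 h5).ne'

/-- **Disproof of collinearity, for every frequency.**  For every `ω > 0` the extremal points
`𝒫₁, 𝒫₂, 𝒫₃` exist and do not lie on one straight line of the `(B, A)`-plane. -/
theorem result : ∀ ω : ℝ, 0 < ω → ∃ p₁ p₂ p₃ : ℝ × ℝ,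
    IsExtremalPoint ω 1 p₁ ∧ IsExtremalPoint ω 2 p₂ ∧ IsExtremalPoint ω 3 p₃ ∧
    ¬ Collinear ℝ {p₁, p₂, p₃} := by
  intro ω hω
  obtain ⟨e, he, hee⟩ := exists_root hω
  exact ⟨(ω, 1), (2 * ω, Real.sqrt (1 + 2 * ω)), (3 * ω, Real.sqrt (1 + 4 * ω * e)),
    extremal_one hω, extremal_two hω, extremal_three hω he hee, not_collinear hω he hee⟩

end Pool.Agent.Results.MP_e0279d_an.NotCollinear
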